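import Pool.Agent.Lib.MP_fe081e_lc.Exc

/-!
# The spanning tree congestion of a connected cograph

`IsCograph`, `stc`, `treeCongestion`, `edgeCongestion` and `IsSpanningTree` are defined in
`Pool.Agent.Lib.MP_fe081e_lc.Defs`.
-/

namespace Pool.Agent.Results.MP_fe081e_lc.CographFormula

open Pool.Agent.Lib.MP_fe081e_lc

/-- For a connected cograph `G` on `n` vertices, `stc(G) ≤ k` if and only if

* there is a root `r` such that every vertex other than `r` has degree at most `k`, together with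
  an injection `f` of the non-neighbours of `r` into the neighbours of `r` with `y ~ f y` and
  `deg y + deg (f y) - 2 ≤ k`, or
* `G` is the join of two isolated vertices and a disconnected graph, and `n - 2 ≤ k`. -/
theorem result {V : Type*} [Fintype V] [DecidableEq V] (G : SimpleGraph V) [DecidableRel G.Adj]
    (hcog : IsCograph G) (hconn : G.Connected) (k : ℕ) :
    stc G ≤ k ↔
      (∃ r : V, (∀ z, z ≠ r → G.degree z ≤ k) ∧
        ∃ f : V → V, Set.InjOn f {y | y ≠ r ∧ ¬ G.Adj r y} ∧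
          ∀ y, y ≠ r → ¬ G.Adj r y →
            G.Adj r (f y) ∧ G.Adj y (f y) ∧ G.degree y + G.degree (f y) ≤ k + 2) ∨
      ((∃ x₁ x₂ : V, x₁ ≠ x₂ ∧ ¬ G.Adj x₁ x₂ ∧
          (∀ v, v ≠ x₁ → v ≠ x₂ → G.Adj x₁ v ∧ G.Adj x₂ v) ∧
          ¬ (G.induce {v | v ≠ x₁ ∧ v ≠ x₂}).Preconnected) ∧
        Fintype.card V ≤ k + 2) := by
  rw [stc_le_iff hcog hconn k]
  constructor
  · rintro (⟨r, h1, f, h2, h3⟩ | h)
    · left
      refine ⟨r, h1, f, ?_, h2⟩
      intro y hy y' hy' hf
      exact h3 y y' hy.1 hy.2 hy'.1 hy'.2 hf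
    · exact Or.inr h
  · rintro (⟨r, h1, f, h2, h3⟩ | h)
    · left
      refine ⟨r, h1, f, h3, ?_⟩
      intro y y' hy hadj hy' hadj' hf
      exact h2 ⟨hy, hadj⟩ ⟨hy', hadj'⟩ hf
    · exact Or.inr h

end Pool.Agent.Results.MP_fe081e_lc.CographFormula
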