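import Pool.Agent.Lib.MP_fe081e_lc.Alg.Machine

/-!
# A polynomial-time algorithm for the spanning tree congestion problem on cographs

`IsCograph`, `stc`, `treeCongestion`, `edgeCongestion` and `IsSpanningTree` are defined in
`Pool.Agent.Lib.MP_fe081e_lc.Defs`, the adjacency matrix `adjBits` in
`Pool.Agent.Lib.MP_fe081e_lc.Alg.Bits`; `Turing.TM2ComputableInPolyTime` is Mathlib's.
-/

namespace Pool.Agent.Results.MP_fe081e_lc.PolyTimeAlgorithm

open Pool.Agent.Lib.MP_fe081e_lc

/-- There is a function `f` on bit strings, computed by a deterministic Turing machine in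
polynomial time, which maps the adjacency matrix of every connected cograph `G` on `n` vertices
to the adjacency matrix of a spanning tree `T` of `G` of minimum congestion. -/
theorem result : ∃ f : List Bool → List Bool,
    Nonempty (Turing.TM2ComputableInPolyTime (id : List Bool → List Bool)
      (id : List Bool → List Bool) f) ∧
    ∀ (n : ℕ) (G : SimpleGraph (Fin n)) [DecidableRel G.Adj], G.Connected → IsCograph G →
      ∃ (T : SimpleGraph (Fin n)) (_ : DecidableRel T.Adj),
        IsSpanningTree G T ∧ treeCongestion G T = stc G ∧ f (adjBits G) = adjBits T :=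
  ⟨Alg.stcFun, Alg.polytime_stcFun, fun _ G _ hconn hcog => Alg.stcFun_correct G hconn hcog⟩

end Pool.Agent.Results.MP_fe081e_lc.PolyTimeAlgorithm
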